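import Pool.Agent.H77.PUC.StmtsE

/-! AXR: a derivative of a polynomial with all roots small has a small root. -/

universe u

namespace PUC

open Polynomial

theorem AXR_sub_le {A : Type u} [Field A] (v : AbsoluteValue A ℝ) (hv : IsNonarchimedean v)
    (a b : A) (c : ℝ) (ha : v a ≤ c) (hb : v b ≤ c) : v (a - b) ≤ c := by
  have h := hv a (-b)
  rw [← sub_eq_add_neg, AbsoluteValue.map_neg] at h
  exact h.trans (max_le ha hb)

theorem AXR_coeff {A : Type u} [Field A] (v : AbsoluteValue A ℝ) (hv : IsNonarchimedean v)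
    (l : ℝ) (hl : 0 ≤ l) (s : Multiset A) :
    (∀ a ∈ s, v a ≤ l) → ∀ k, k ≤ Multiset.card s →
      v ((s.map fun a => X - C a).prod.coeff k) ≤ l ^ (Multiset.card s - k) := by
  induction s using Multiset.induction_on with
  | empty =>
    intro _ k hk
    have hk0 : k = 0 := by simpa using hk
    subst hk0
    simp
  | cons a s ih =>
    intro h k hk
    have hs : ∀ b ∈ s, v b ≤ l := fun b hb => h b (Multiset.mem_cons_of_mem hb)
    have ha : v a ≤ l := h a (Multiset.mem_cons_self a s)
    rw [Multiset.card_cons] at hk ⊢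
    rw [Multiset.map_cons, Multiset.prod_cons]
    have hdeg : (s.map fun a => X - C a).prod.natDegree = Multiset.card s :=
      natDegree_multiset_prod_X_sub_C_eq_card s
    set P := (s.map fun a => X - C a).prod with hP
    have hlow : ∀ k, k ≤ Multiset.card s → v (a * P.coeff k) ≤ l ^ (Multiset.card s + 1 - k) := by
      intro k hk
      rw [map_mul, show Multiset.card s + 1 - k = (Multiset.card s - k) + 1 by omega, pow_succ,
        mul_comm]
      exact mul_le_mul (ih hs k hk) ha (v.nonneg _) (pow_nonneg hl _)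
    rcases Nat.eq_zero_or_pos k with rfl | hk0
    · have h1 : ((X - C a) * P).coeff 0 = - (a * P.coeff 0) := by
        rw [mul_coeff_zero]
        simp
      rw [h1, AbsoluteValue.map_neg]
      exact hlow 0 (Nat.zero_le _)
    · obtain ⟨j, rfl⟩ := Nat.exists_eq_succ_of_ne_zero hk0.ne'
      have h1 : ((X - C a) * P).coeff (j + 1) = P.coeff j - a * P.coeff (j + 1) := by
        rw [sub_mul, coeff_sub, coeff_X_mul, coeff_C_mul]
      rw [Nat.succ_eq_add_one, h1]
      apply AXR_sub_le v hv
      · have := ih hs j (by omega)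
        rwa [show Multiset.card s + 1 - (j + 1) = Multiset.card s - j by omega]
      · by_cases hj : j + 1 ≤ Multiset.card s
        · exact hlow (j + 1) hj
        · have h0 : P.coeff (j + 1) = 0 := coeff_eq_zero_of_natDegree_lt (by omega)
          rw [h0, mul_zero, map_zero]
          exact pow_nonneg hl _

theorem AXR_min {A : Type u} [Field A] (v : AbsoluteValue A ℝ) (s : Multiset A) (hs : s ≠ 0) :
    ∃ b ∈ s, v b ^ Multiset.card s ≤ v s.prod := by
  classical
  have hne : s.toFinset.Nonempty := by
    rw [Multiset.toFinset_nonempty]; exact hs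
  obtain ⟨b, hb, hmin⟩ := s.toFinset.exists_min_image v hne
  refine ⟨b, Multiset.mem_toFinset.1 hb, ?_⟩
  have hmin' : ∀ a ∈ s, v b ≤ v a := fun a ha => hmin a (Multiset.mem_toFinset.2 ha)
  clear hmin hb hne hs
  induction s using Multiset.induction_on with
  | empty => simp
  | cons a s ih =>
    rw [Multiset.card_cons, Multiset.prod_cons, map_mul, pow_succ, mul_comm]
    exact mul_le_mul (hmin' a (Multiset.mem_cons_self a s))
      (ih fun c hc => hmin' c (Multiset.mem_cons_of_mem hc)) (pow_nonneg (v.nonneg _) _)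
      (v.nonneg _)

theorem sAxr : SAxr.{u} := by
  intro A _ _ _ v hv Q l hQ hroots hl m hm
  set n := Q.natDegree with hn
  set D := Polynomial.hasseDeriv m Q with hD
  have hsplit : Q.Splits := IsAlgClosed.splits Q
  have hQprod : (Q.roots.map fun a => X - C a).prod = Q := by
    have h := hsplit.eq_prod_roots
    rw [hQ.leadingCoeff, C_1, one_mul] at h
    exact h.symm
  have hcard : Multiset.card Q.roots = n := (splits_iff_card_roots.1 hsplit)
  have hcoef : v (Q.coeff m) ≤ l ^ (n - m) := by
    have h := AXR_coeff v hv l hl Q.roots hroots m (by omega)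
    rw [hQprod, hcard] at h
    exact h
  have hDdeg : D.natDegree = n - m := natDegree_hasseDeriv Q m
  have hchoose : ((Nat.choose n m : ℕ) : A) ≠ 0 :=
    Nat.cast_ne_zero.2 (Nat.choose_pos hm.le).ne'
  have hDlead : D.leadingCoeff = ((Nat.choose n m : ℕ) : A) := by
    rw [leadingCoeff, hDdeg, hD, hasseDeriv_coeff, show n - m + m = n by omega, hn,
      hQ.coeff_natDegree, mul_one]
  have hD0 : D.coeff 0 = Q.coeff m := by
    rw [hD, hasseDeriv_coeff]; simp
  have hDsplit : D.Splits := IsAlgClosed.splits D
  have hDcard : Multiset.card D.roots = n - m := by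
    rw [← hDdeg]; exact splits_iff_card_roots.1 hDsplit
  have hDne : D ≠ 0 := by
    intro h
    rw [h, leadingCoeff_zero] at hDlead
    exact hchoose hDlead.symm
  have hprod : v D.roots.prod * v ((Nat.choose n m : ℕ) : A) = v (Q.coeff m) := by
    have h := hDsplit.coeff_zero_eq_leadingCoeff_mul_prod_roots
    rw [hD0, hDlead] at h
    rw [h]
    simp only [map_mul, map_pow, AbsoluteValue.map_neg, map_one, one_pow, one_mul]
    ring
  have hrne : D.roots ≠ 0 := by
    intro h
    rw [h, Multiset.card_zero] at hDcard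
    omega
  obtain ⟨b, hb, hle⟩ := AXR_min v D.roots hrne
  refine ⟨b, isRoot_of_mem_roots hb, ?_⟩
  rw [hDcard] at hle
  calc v b ^ (n - m) * v ((Nat.choose n m : ℕ) : A)
      ≤ v D.roots.prod * v ((Nat.choose n m : ℕ) : A) := by
        gcongr
    _ = v (Q.coeff m) := hprod
    _ ≤ l ^ (n - m) := hcoef

end PUC
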