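import Pool.Agent.H77.PUC.Util

/-! BDU: limits of places along an analytic bijection. -/

universe u

namespace PUC

open Polynomial Filter Topology Metric

theorem BDU_inv {K : Type*} [NormedField K] [IsUltrametricDist K] (c y : K) (ε : ℝ) (hc : c ≠ 0)
    (h1 : ‖y - c⁻¹‖ < ‖c‖⁻¹) (h2 : ‖y - c⁻¹‖ ≤ ε / ‖c‖ ^ 2) : y ≠ 0 ∧ ‖y⁻¹ - c‖ ≤ ε := by
  have hcn : 0 < ‖c‖ := norm_pos_iff.2 hc
  have hy : ‖c‖⁻¹ ≤ ‖y‖ := by
    have h3 : ‖c⁻¹‖ ≤ max ‖y‖ ‖y - c⁻¹‖ := by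
      have := norm_sub_le_max' y (y - c⁻¹)
      rwa [sub_sub_cancel] at this
    rw [norm_inv] at h3
    rcases le_max_iff.1 h3 with h4 | h4
    · exact h4
    · exact absurd h1 (not_lt.2 h4)
  have hyn : 0 < ‖y‖ := lt_of_lt_of_le (inv_pos.2 hcn) hy
  have hy0 : y ≠ 0 := norm_pos_iff.1 hyn
  refine ⟨hy0, ?_⟩
  have e : y⁻¹ - c = - ((y - c⁻¹) * c * y⁻¹) := by
    field_simp
    ring
  rw [e, norm_neg, norm_mul, norm_mul, norm_inv]
  have h5 : ‖y‖⁻¹ ≤ ‖c‖ := by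
    rw [inv_le_comm₀ hyn hcn]; exact hy
  calc ‖y - c⁻¹‖ * ‖c‖ * ‖y‖⁻¹ ≤ (ε / ‖c‖ ^ 2) * ‖c‖ * ‖c‖ := by
        gcongr
        have : 0 ≤ ε / ‖c‖ ^ 2 := (norm_nonneg _).trans h2
        positivity
    _ = ε := by field_simp

theorem sBdu (hLMP : SLmp.{u}) : SBdu.{u} := by
  intro K E1 E2 _ _ _ _ _ _ _ _ _ _ φ hφ 𝒰 h𝒰
  obtain ⟨Q0, hQ0, hlim⟩ := hLMP K E2 (𝒰.map φ) (by
    intro κ
    rw [Ultrafilter.coe_map, eventually_map]
    exact h𝒰 κ)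
  refine ⟨φ.symm Q0, by rwa [Equiv.apply_symm_apply], ?_⟩
  -- the key step
  have key : ∀ f : E1, f ∈ (φ.symm Q0).ring → f ≠ 0 → ∀ ε' : ℝ, 0 < ε' →
      (∀ᶠ P in (𝒰 : Filter (Place K E1)), f ∈ P.ring ∧ ‖P.val f - (φ.symm Q0).val f‖ ≤ ε') ∨
      (f⁻¹ ∈ (φ.symm Q0).ring ∧
        ∀ᶠ P in (𝒰 : Filter (Place K E1)), f⁻¹ ∈ P.ring ∧
          ‖P.val f⁻¹ - (φ.symm Q0).val f⁻¹‖ ≤ ε') := by
    intro f hf hf0 ε' hε'
    obtain ⟨n, T, g, hcov, hpc⟩ := hφ f ε' hε'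
    obtain ⟨i, hi⟩ := exists_piece (𝒰.map φ) (T := T) (Eventually.of_forall hcov)
    have hQi : Q0 ∈ Dom K (T i) := mem_dom_of_lim (𝒰.map φ) Q0 hlim hi
    rw [Ultrafilter.coe_map, eventually_map] at hi
    have gen : ∀ f' : E1, (∀ P ∈ Dom K (T i), f' ∈ (φ.symm P).ring ∧ g i ∈ P.ring ∧
        ‖(φ.symm P).val f' - P.val (g i)‖ ≤ ε') →
        f' ∈ (φ.symm Q0).ring ∧ ∀ᶠ P in (𝒰 : Filter (Place K E1)), f' ∈ P.ring ∧
          ‖P.val f' - (φ.symm Q0).val f'‖ ≤ ε' := by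
      intro f' h
      obtain ⟨h1, h2, h3⟩ := h Q0 hQi
      refine ⟨h1, ?_⟩
      have h4 := hlim (g i) h2 ε' hε'
      rw [Ultrafilter.coe_map, eventually_map] at h4
      filter_upwards [hi, h4] with P hP1 hP2
      obtain ⟨h5, h6, h7⟩ := h (φ P) hP1
      rw [Equiv.symm_apply_apply] at h5 h7
      refine ⟨h5, ?_⟩
      have e : P.val f' - (φ.symm Q0).val f' = ((P.val f' - (φ P).val (g i)) +
        ((φ P).val (g i) - Q0.val (g i))) - ((φ.symm Q0).val f' - Q0.val (g i)) := by ring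
      rw [e]
      refine (norm_sub_le_max' _ _).trans (max_le ?_ h3)
      exact (IsUltrametricDist.norm_add_le_max _ _).trans (max_le h7 hP2.2)
    rcases hpc i with h | h
    · exact Or.inl (gen f h).2
    · exact Or.inr (gen f⁻¹ h)
  intro f hf ε hε
  by_cases hf0 : f = 0
  · refine Eventually.of_forall fun P => ?_
    rw [hf0, P.val_zero, Place.val_zero, sub_zero, norm_zero]
    exact ⟨P.ring.zero_mem, hε.le⟩
  by_cases hc : (φ.symm Q0).val f = 0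
  · rcases key f hf hf0 ε hε with h | h
    · exact h
    · exact absurd h.1 ((φ.symm Q0).inv_not_mem hf hc hf0)
  · have hcn : 0 < ‖(φ.symm Q0).val f‖ := norm_pos_iff.2 hc
    set c := (φ.symm Q0).val f with hcdef
    have hε' : 0 < min ε (min (‖c‖⁻¹ / 2) (ε / ‖c‖ ^ 2)) := by
      refine lt_min hε (lt_min ?_ ?_) <;> positivity
    rcases key f hf hf0 _ hε' with h | h
    · exact h.mono fun P hP => ⟨hP.1, hP.2.trans (min_le_left _ _)⟩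
    · refine h.2.mono fun P hP => ?_
      rw [(φ.symm Q0).val_inv hf hc, ← hcdef] at hP
      have h1 : ‖P.val f⁻¹ - c⁻¹‖ < ‖c‖⁻¹ := by
        have := hP.2.trans ((min_le_right _ _).trans (min_le_left _ _))
        have h2 : 0 < ‖c‖⁻¹ := inv_pos.2 hcn
        linarith
      have h2 : ‖P.val f⁻¹ - c⁻¹‖ ≤ ε / ‖c‖ ^ 2 :=
        hP.2.trans ((min_le_right _ _).trans (min_le_right _ _))
      obtain ⟨h3, h4⟩ := BDU_inv c _ ε hc h1 h2
      have h5 := P.inv_mem_of_val hP.1 h3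
      have h6 := P.val_inv hP.1 h3
      rw [inv_inv] at h5 h6
      rw [h6]
      exact ⟨h5, h4⟩

end PUC
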