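import Pool.Agent.H77.PUC.StmtsE

/-! LFT: lifts of the automorphisms of `F'` to `Ω`, and invariance. -/

universe u

namespace PUC

open Polynomial Filter Topology

theorem sLft : SLft.{u} := by
  classical
  intro K Ω _ _ _ _ _ _ _ _ _ F' _ _
  have : Normal (RatFunc K) Ω := by
    have : IsAlgClosure (RatFunc K) Ω := ⟨inferInstance, inferInstance⟩
    exact IsAlgClosure.normal (RatFunc K) Ω
  have : Normal (RatFunc K) F' := IsGalois.to_normal
  have h1 : ∀ (γ : F' ≃ₐ[RatFunc K] F') (f : F'),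
      (if γ = 1 then (1 : Ω ≃ₐ[RatFunc K] Ω) else AlgEquiv.liftNormal γ Ω) (f : Ω) =
        ((γ f : F') : Ω) := by
    intro γ f
    split_ifs with h
    · subst h; rfl
    · exact AlgEquiv.liftNormal_commutes γ Ω f
  refine ⟨fun γ => if γ = 1 then 1 else AlgEquiv.liftNormal γ Ω, if_pos rfl, h1, ?_⟩
  intro τ
  refine ⟨Equiv.mulLeft (AlgEquiv.restrictNormal τ F'), ?_⟩
  intro γ P f hf
  rw [Place.mem_gact, Place.mem_gact, Place.mem_gact]
  have h2 := h1 γ ⟨f, hf⟩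
  have h3 := h1 (Equiv.mulLeft (AlgEquiv.restrictNormal τ F') γ) ⟨f, hf⟩
  have h4 : τ ((γ ⟨f, hf⟩ : F') : Ω) =
      ((AlgEquiv.restrictNormal τ F' (γ ⟨f, hf⟩) : F') : Ω) :=
    (AlgEquiv.restrictNormal_commutes τ F' (γ ⟨f, hf⟩)).symm
  show τ _ ∈ P.ring ↔ _
  have h2' : (if γ = 1 then (1 : Ω ≃ₐ[RatFunc K] Ω) else AlgEquiv.liftNormal γ Ω) f =
      ((γ ⟨f, hf⟩ : F') : Ω) := h2
  have h3' : (if Equiv.mulLeft (AlgEquiv.restrictNormal τ F') γ = 1 then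
      (1 : Ω ≃ₐ[RatFunc K] Ω) else
        AlgEquiv.liftNormal (Equiv.mulLeft (AlgEquiv.restrictNormal τ F') γ) Ω) f =
      ((Equiv.mulLeft (AlgEquiv.restrictNormal τ F') γ ⟨f, hf⟩ : F') : Ω) := h3
  rw [h2', h3', h4]
  rfl

end PUC
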