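import Pool.Agent.H77.PUC.Util

/-! MXP: maximum principle for polynomials on a disc. -/

universe u

namespace PUC

open Polynomial Filter Topology Metric

theorem MXP_pt {K : Type*} [NormedField K] [IsUltrametricDist K] (a a' c β : K)
    (h1 : ‖a - c‖ < ‖a' - c‖) (h2 : ‖β - c‖ ≠ ‖a' - c‖) : ‖a - β‖ ≤ ‖a' - β‖ := by
  have e1 : ‖a - β‖ ≤ max ‖a - c‖ ‖β - c‖ := by
    have := norm_sub_le_max' (a - c) (β - c)
    rwa [sub_sub_sub_cancel_right] at this
  rcases lt_or_gt_of_ne h2 with h | h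
  · have e2 : ‖a' - c‖ ≤ max ‖a' - β‖ ‖β - c‖ := by
      have := IsUltrametricDist.norm_add_le_max (a' - β) (β - c)
      rwa [sub_add_sub_cancel] at this
    rcases le_max_iff.1 e2 with h3 | h3
    · exact (e1.trans (max_le h1.le h.le)).trans h3
    · exact absurd h (not_lt.2 h3)
  · have e2 : ‖β - c‖ ≤ max ‖a' - c‖ ‖a' - β‖ := by
      have := norm_sub_le_max' (a' - c) (a' - β)
      rwa [show a' - c - (a' - β) = β - c by ring] at this
    rcases le_max_iff.1 e2 with h3 | h3
    · exact absurd h (not_lt.2 h3)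
    · exact (e1.trans (max_le (h1.trans h).le le_rfl)).trans h3

theorem MXP_prod {K : Type*} [NormedField K] (s : Multiset K) (a a' : K)
    (h : ∀ β ∈ s, ‖a - β‖ ≤ ‖a' - β‖) :
    ‖(s.map fun β => a - β).prod‖ ≤ ‖(s.map fun β => a' - β).prod‖ := by
  induction s using Multiset.induction_on with
  | empty => simp
  | cons b s ih =>
    rw [Multiset.map_cons, Multiset.map_cons, Multiset.prod_cons, Multiset.prod_cons, norm_mul,
      norm_mul]
    exact mul_le_mul (h b (Multiset.mem_cons_self b s))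
      (ih fun c hc => h c (Multiset.mem_cons_of_mem hc)) (norm_nonneg _) (norm_nonneg _)

theorem MXP_gap {K : Type*} [NormedField K] (s : Multiset K) (c : K) (r R : ℝ) (h : r < R) :
    ∃ b, r < b ∧ b ≤ R ∧ ∀ β ∈ s, ‖β - c‖ ≤ r ∨ b ≤ ‖β - c‖ := by
  induction s using Multiset.induction_on with
  | empty => exact ⟨R, h, le_rfl, by simp⟩
  | cons x s ih =>
    obtain ⟨b, hb1, hb2, hb3⟩ := ih
    by_cases hx : ‖x - c‖ ≤ r
    · refine ⟨b, hb1, hb2, fun β hβ => ?_⟩
      rcases Multiset.mem_cons.1 hβ with rfl | hβ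
      · exact Or.inl hx
      · exact hb3 β hβ
    · refine ⟨min b ‖x - c‖, lt_min hb1 (not_le.1 hx), (min_le_left _ _).trans hb2, fun β hβ => ?_⟩
      rcases Multiset.mem_cons.1 hβ with rfl | hβ
      · exact Or.inr (min_le_right _ _)
      · rcases hb3 β hβ with h4 | h4
        · exact Or.inl h4
        · exact Or.inr ((min_le_left _ _).trans h4)

theorem sMxp : SMxp.{u} := by
  intro K _ _ _ Q c r R η hr hrR hQ a ha
  by_cases har : r < ‖a - c‖
  · exact hQ a har ha
  push Not at har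
  obtain ⟨b, hb1, hb2, hb3⟩ := MXP_gap Q.roots c r R hrR
  obtain ⟨d, hd1, hd2⟩ := exists_norm_between (K := K) hr hb1
  have hd : ‖c + d - c‖ = ‖d‖ := by rw [add_sub_cancel_left]
  have hle : ‖Q.eval a‖ ≤ ‖Q.eval (c + d)‖ := by
    have hs : Q.Splits := IsAlgClosed.splits Q
    rw [hs.eval_eq_prod_roots, hs.eval_eq_prod_roots, norm_mul, norm_mul]
    gcongr
    apply MXP_prod
    intro β hβ
    apply MXP_pt a (c + d) c β
    · rw [hd]; exact har.trans_lt hd1
    · rw [hd]
      rcases hb3 β hβ with h | h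
      · exact (h.trans_lt hd1).ne
      · exact (hd2.trans_le h).ne'
  refine hle.trans (hQ (c + d) ?_ ?_)
  · rw [hd]; exact hd1
  · rw [hd]; exact (hd2.trans_le hb2).le

end PUC
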