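import Pool.Agent.H77.PUC.StmtsE

/-! TOW: tower of algebraic extensions. -/

universe u

namespace PUC

open Polynomial Filter Topology

theorem sTow : STow.{u} := by
  intro K F Ω _ _ _ _ _ _ _ _ x hx
  have := hx
  refine ⟨fun w => ?_⟩
  have : Algebra.IsAlgebraic (IntermediateField.adjoin K {x}) Ω :=
    Algebra.IsAlgebraic.trans (IntermediateField.adjoin K {x}) F Ω
  have hw : IsAlgebraic (IntermediateField.adjoin K {x}) w := Algebra.IsAlgebraic.isAlgebraic w
  obtain ⟨p, hp0, hp⟩ := hw
  have hmap : (IntermediateField.adjoin K {x}).map (IsScalarTower.toAlgHom K F Ω) =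
      IntermediateField.adjoin K {algebraMap F Ω x} := by
    rw [IntermediateField.adjoin_map, Set.image_singleton]
    rfl
  have hmem : ∀ a : IntermediateField.adjoin K {x},
      algebraMap F Ω (a : F) ∈ IntermediateField.adjoin K {algebraMap F Ω x} := by
    intro a
    rw [← hmap]
    exact ⟨a, a.2, rfl⟩
  let φ : IntermediateField.adjoin K {x} →+* IntermediateField.adjoin K {algebraMap F Ω x} :=
    { toFun := fun a => ⟨algebraMap F Ω (a : F), hmem a⟩
      map_one' := by ext; simp
      map_mul' := by intro a b; ext; simp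
      map_zero' := by ext; simp
      map_add' := by intro a b; ext; simp }
  refine ⟨p.map φ, (Polynomial.map_ne_zero_iff φ.injective).2 hp0, ?_⟩
  rw [aeval_def, eval₂_map]
  rw [aeval_def] at hp
  exact hp

end PUC
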