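import Pool.Agent.H77.PUC.Util

/-! VAL: an ultrafilter of places that induces a norm on `K(z)` induces an absolute value on `Ω`. -/

universe u

namespace PUC

open Polynomial Filter Topology Metric

theorem VAL_mem {K E : Type*} [Field K] [Field E] [Algebra K E] (P : Place K E)
    (f : E) (n : ℕ) (a : ℕ → E) (ha : ∀ i, i < n → a i ∈ P.ring)
    (h : f ^ n + ∑ i ∈ Finset.range n, a i * f ^ i = 0) : f ∈ P.ring := by
  by_contra hf
  have hg := P.inv_mem_of_not_mem hf
  have hg0 := P.val_inv_of_not_mem hf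
  have hf0 : f ≠ 0 := by rintro rfl; exact hf P.ring.zero_mem
  have e : (1 : E) + ∑ i ∈ Finset.range n, a i * f⁻¹ ^ (n - i) = 0 := by
    have h1 : (f ^ n + ∑ i ∈ Finset.range n, a i * f ^ i) * f⁻¹ ^ n = 0 := by rw [h, zero_mul]
    rw [add_mul, ← mul_pow, mul_inv_cancel₀ hf0, one_pow, Finset.sum_mul] at h1
    rw [← h1]
    congr 1
    apply Finset.sum_congr rfl
    intro i hi
    have hi' : i ≤ n := (Finset.mem_range.1 hi).le
    have h2 : f⁻¹ ^ n = f⁻¹ ^ i * f⁻¹ ^ (n - i) := by rw [← pow_add]; congr 1; omega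
    rw [h2, mul_assoc, ← mul_assoc (f ^ i), ← mul_pow, mul_inv_cancel₀ hf0, one_pow, one_mul]
  have hmem : ∀ i ∈ Finset.range n, a i * f⁻¹ ^ (n - i) ∈ P.ring := fun i hi =>
    P.ring.mul_mem _ _ (ha i (Finset.mem_range.1 hi)) (P.pow_mem hg _)
  have h3 := congrArg P.val e
  rw [P.val_add P.ring.one_mem (P.sum_mem _ _ hmem), P.val_sum _ _ hmem, P.val_one, P.val_zero] at h3
  rw [Finset.sum_eq_zero, add_zero] at h3
  · exact one_ne_zero h3
  · intro i hi
    have hi' : n - i ≠ 0 := by have := Finset.mem_range.1 hi; omega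
    rw [P.val_mul (ha i (Finset.mem_range.1 hi)) (P.pow_mem hg _), P.val_pow hg, hg0,
      zero_pow hi', mul_zero]

theorem VAL_le {K E : Type*} [NormedField K] [IsUltrametricDist K] [Field E] [Algebra K E]
    (P : Place K E) (f : E) (n : ℕ) (a : ℕ → E) (M : ℝ) (hM : 1 ≤ M)
    (ha : ∀ i, i < n → a i ∈ P.ring ∧ ‖P.val (a i)‖ ≤ M)
    (h : f ^ n + ∑ i ∈ Finset.range n, a i * f ^ i = 0) : f ∈ P.ring ∧ ‖P.val f‖ ≤ M := by
  have hf := VAL_mem P f n a (fun i hi => (ha i hi).1) h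
  refine ⟨hf, ?_⟩
  by_contra hx
  push Not at hx
  have hmem : ∀ i ∈ Finset.range n, a i * f ^ i ∈ P.ring := fun i hi =>
    P.ring.mul_mem _ _ (ha i (Finset.mem_range.1 hi)).1 (P.pow_mem hf _)
  have h3 := congrArg P.val h
  rw [P.val_add (P.pow_mem hf n) (P.sum_mem _ _ hmem), P.val_sum _ _ hmem, P.val_zero,
    P.val_pow hf] at h3
  have hn : n ≠ 0 := by
    rintro rfl
    simp at h3
  obtain ⟨m, rfl⟩ := Nat.exists_eq_succ_of_ne_zero hn
  have hx1 : 1 ≤ ‖P.val f‖ := hM.trans hx.le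
  have hsum : ‖∑ i ∈ Finset.range (m + 1), P.val (a i * f ^ i)‖ ≤ M * ‖P.val f‖ ^ m := by
    apply IsUltrametricDist.norm_sum_le_of_forall_le_of_nonneg
    · positivity
    · intro i hi
      have hi' := Finset.mem_range.1 hi
      rw [P.val_mul (ha i hi').1 (P.pow_mem hf _), P.val_pow hf, norm_mul, norm_pow]
      exact mul_le_mul (ha i hi').2 (pow_le_pow_right₀ hx1 (by omega)) (by positivity) (by linarith)
  have h4 : ‖P.val f ^ (m + 1)‖ = ‖∑ i ∈ Finset.range (m + 1), P.val (a i * f ^ i)‖ := by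
    rw [← norm_neg (∑ i ∈ Finset.range (m + 1), P.val (a i * f ^ i))]
    congr 1
    exact eq_neg_of_add_eq_zero_left h3
  rw [← h4, norm_pow, pow_succ, mul_comm] at hsum
  have h5 : 0 < ‖P.val f‖ ^ m := by positivity
  have h6 : ‖P.val f‖ ≤ M := le_of_mul_le_mul_right hsum h5
  linarith

theorem sVal : SVal.{u} := by
  intro K Ω _ _ _ _ _ _ _ 𝒰 v0 h0
  -- bounds on `K(z)`
  have hK : ∀ h : RatFunc K, ∃ M : ℝ, 1 ≤ M ∧ ∀ᶠ P in (𝒰 : Filter (Place K Ω)),
      algebraMap (RatFunc K) Ω h ∈ P.ring ∧ ‖P.val (algebraMap (RatFunc K) Ω h)‖ ≤ M := by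
    intro h
    by_cases hh : h = 0
    · refine ⟨1, le_rfl, Eventually.of_forall fun P => ?_⟩
      rw [hh, map_zero, P.val_zero, norm_zero]
      exact ⟨P.ring.zero_mem, zero_le_one⟩
    · obtain ⟨hpos, hlim⟩ := h0 h hh
      refine ⟨v0 h + 1, by linarith, ?_⟩
      filter_upwards [hlim.eventually (lt_mem_nhds hpos),
        hlim.eventually (gt_mem_nhds (show v0 h < v0 h + 1 by linarith))] with P h1 h2
      refine ⟨?_, h2.le⟩
      by_contra hn
      rw [P.val_of_not_mem hn, norm_zero] at h1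
      exact lt_irrefl _ h1
  have hb : ∀ f : Ω, ∃ M : ℝ, 1 ≤ M ∧ ∀ᶠ P in (𝒰 : Filter (Place K Ω)),
      f ∈ P.ring ∧ ‖P.val f‖ ≤ M := by
    intro f
    have hint : IsIntegral (RatFunc K) f := Algebra.IsIntegral.isIntegral f
    choose M hM1 hM2 using hK
    set p := minpoly (RatFunc K) f with hp
    have hmonic : p.Monic := minpoly.monic hint
    refine ⟨1 + ∑ i ∈ Finset.range p.natDegree, M (p.coeff i), ?_, ?_⟩
    · have : 0 ≤ ∑ i ∈ Finset.range p.natDegree, M (p.coeff i) :=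
        Finset.sum_nonneg fun i _ => zero_le_one.trans (hM1 _)
      linarith
    have hall : ∀ᶠ P in (𝒰 : Filter (Place K Ω)), ∀ i ∈ Finset.range p.natDegree,
        algebraMap (RatFunc K) Ω (p.coeff i) ∈ P.ring ∧
          ‖P.val (algebraMap (RatFunc K) Ω (p.coeff i))‖ ≤ M (p.coeff i) :=
      (Filter.eventually_all_finset _).2 fun i _ => hM2 _
    filter_upwards [hall] with P hP
    apply VAL_le P f p.natDegree (fun i => algebraMap (RatFunc K) Ω (p.coeff i))
    · have : 0 ≤ ∑ i ∈ Finset.range p.natDegree, M (p.coeff i) :=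
        Finset.sum_nonneg fun i _ => zero_le_one.trans (hM1 _)
      linarith
    · intro i hi
      have h1 := hP i (Finset.mem_range.2 hi)
      refine ⟨h1.1, h1.2.trans ?_⟩
      have h2 := Finset.single_le_sum (f := fun i => M (p.coeff i))
        (fun j _ => zero_le_one.trans (hM1 _)) (Finset.mem_range.2 hi)
      linarith
    · have h1 : aeval f p = 0 := minpoly.aeval _ _
      rw [aeval_eq_sum_range, Finset.sum_range_succ, hmonic.coeff_natDegree, one_smul,
        add_comm] at h1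
      simpa only [Algebra.smul_def] using h1
  have hlim : ∀ f : Ω, ∃ y : ℝ, 0 ≤ y ∧
      Tendsto (fun P : Place K Ω => ‖P.val f‖) 𝒰 (𝓝 y) := by
    intro f
    obtain ⟨M, _, hM⟩ := hb f
    obtain ⟨y, hy, hy2⟩ := (isCompact_Icc (a := (0 : ℝ)) (b := M)).ultrafilter_le_nhds'
      (𝒰.map fun P => ‖P.val f‖) (by
        rw [Ultrafilter.mem_map]
        filter_upwards [hM] with P hP
        exact ⟨norm_nonneg _, hP.2⟩)
    exact ⟨y, hy.1, hy2⟩
  choose v hv0 hv using hlim
  have hne : ∀ f : Ω, f ≠ 0 → v f ≠ 0 := by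
    intro f hf
    obtain ⟨M, hM1, hM⟩ := hb f⁻¹
    obtain ⟨M', _, hM'⟩ := hb f
    have hge : ∀ᶠ P in (𝒰 : Filter (Place K Ω)), M⁻¹ ≤ ‖P.val f‖ := by
      filter_upwards [hM, hM'] with P h1 h2
      have h3 := P.val_mul h2.1 h1.1
      rw [mul_inv_cancel₀ hf, P.val_one] at h3
      have h4 := congrArg norm h3
      rw [norm_one, norm_mul] at h4
      have hMpos : 0 < M := by linarith
      rw [inv_le_iff_one_le_mul₀ hMpos, h4]
      exact mul_le_mul_of_nonneg_left h1.2 (norm_nonneg _)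
    have h5 : M⁻¹ ≤ v f := ge_of_tendsto (hv f) hge
    have : 0 < M⁻¹ := by positivity
    linarith
  have hmul : ∀ f g : Ω, v (f * g) = v f * v g := by
    intro f g
    apply tendsto_nhds_unique (hv (f * g))
    refine ((hv f).mul (hv g)).congr' ?_
    obtain ⟨_, _, h1⟩ := hb f
    obtain ⟨_, _, h2⟩ := hb g
    filter_upwards [h1, h2] with P h1 h2
    rw [P.val_mul h1.1 h2.1, norm_mul]
  have hadd : ∀ f g : Ω, v (f + g) ≤ max (v f) (v g) := by
    intro f g
    refine le_of_tendsto_of_tendsto (hv (f + g)) ((hv f).max (hv g)) ?_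
    obtain ⟨_, _, h1⟩ := hb f
    obtain ⟨_, _, h2⟩ := hb g
    filter_upwards [h1, h2] with P h1 h2
    rw [P.val_add h1.1 h2.1]
    exact IsUltrametricDist.norm_add_le_max _ _
  have hzero : v 0 = 0 := by
    apply tendsto_nhds_unique (hv 0)
    simp
  refine ⟨{ toFun := v, map_mul' := hmul, nonneg' := hv0, eq_zero' := ?_, add_le' := ?_ }, ?_, ?_, ?_⟩
  · intro f
    refine ⟨fun h => ?_, fun h => ?_⟩
    · by_contra hf; exact hne f hf h
    · rw [h]; exact hzero
  · intro f g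
    exact (hadd f g).trans (max_le_add_of_nonneg (hv0 f) (hv0 g))
  · intro f g
    exact hadd f g
  · intro c
    show v (algebraMap K Ω c) = ‖c‖
    apply tendsto_nhds_unique (hv _)
    simp
  · intro f
    obtain ⟨_, _, h1⟩ := hb f
    exact ⟨hv f, h1.mono fun P h => h.1⟩

end PUC
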